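import Mathlib

/-!
The arithmetic of the nearly cubic lower bound: from the count of critical points to
`N ^ 3 ≤ 64 (M + 1)` for `N = 2 q`, and from there to the logarithmic form.
-/

namespace L5helper96.NC

theorem log_factorial_ge (q : ℕ) (hq : 1 ≤ q) :
    (q : ℝ) * (Real.log q - 1) ≤ Real.log (q.factorial : ℝ) := by
  have hq' : (0 : ℝ) < q := by exact_mod_cast hq
  have hf : (0 : ℝ) < (q.factorial : ℝ) := by exact_mod_cast q.factorial_pos
  have h1 : (q : ℝ) ^ q / (q.factorial : ℝ) ≤ Real.exp q :=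
    Real.pow_div_factorial_le_exp (q : ℝ) hq'.le q
  have h2 : (q : ℝ) ^ q ≤ Real.exp q * (q.factorial : ℝ) := by
    rwa [div_le_iff₀ hf] at h1
  have h3 := Real.log_le_log (by positivity) h2
  rw [Real.log_pow, Real.log_mul (Real.exp_ne_zero _) hf.ne', Real.log_exp] at h3
  linarith

/-- From the count of critical points to the cubic bound. -/
theorem cubic (q M : ℕ) (hq : 1 ≤ q)
    (h : ∀ a b : ℕ, 1 ≤ a → 1 ≤ b →
      (q.factorial ^ 2) ^ (2 * q) * (a ^ (2 * q * (2 * q) + 1) * b ^ (2 * M)) ≤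
        (a + b) ^ (2 * M + 1) * (2 * b) ^ (2 * q * (2 * q))) :
    (2 * q) ^ 3 ≤ 64 * (M + 1) := by
  have hq' : (1 : ℝ) ≤ q := by exact_mod_cast hq
  have hq0 : (0 : ℝ) < q := by linarith
  have hf : (0 : ℝ) < (q.factorial : ℝ) := by exact_mod_cast q.factorial_pos
  have h1 := h 16 q (by norm_num) hq
  have h2 : (((q.factorial : ℝ) ^ 2) ^ (2 * q) * ((16 : ℝ) ^ (2 * q * (2 * q) + 1) *
      (q : ℝ) ^ (2 * M))) ≤
        ((16 : ℝ) + q) ^ (2 * M + 1) * (2 * (q : ℝ)) ^ (2 * q * (2 * q)) := by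
    exact_mod_cast h1
  have h3 := Real.log_le_log (by positivity) h2
  rw [Real.log_mul (by positivity) (by positivity), Real.log_mul (by positivity) (by positivity),
    Real.log_mul (by positivity) (by positivity), Real.log_pow, Real.log_pow, Real.log_pow,
    Real.log_pow, Real.log_pow, Real.log_pow, Real.log_mul (by norm_num) hq0.ne'] at h3
  have h4 : Real.log (16 : ℝ) = 4 * Real.log 2 := by
    rw [show (16 : ℝ) = 2 ^ 4 by norm_num, Real.log_pow]
    norm_num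
  have h5 : Real.log ((16 : ℝ) + q) ≤ Real.log q + 16 / q := by
    have e1 : (16 : ℝ) + q = q * (1 + 16 / q) := by field_simp; ring
    rw [e1, Real.log_mul hq0.ne' (by positivity)]
    have := Real.log_le_sub_one_of_pos (show (0 : ℝ) < 1 + 16 / q by positivity)
    linarith
  have h6 := log_factorial_ge q hq
  have h7 : (0.6931471803 : ℝ) < Real.log 2 := Real.log_two_gt_d9
  have h8 : Real.log q ≤ 4 * Real.log 2 + (q / 16 - 1) := by
    have := Real.log_le_sub_one_of_pos (show (0 : ℝ) < (q : ℝ) / 16 by positivity)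
    rw [Real.log_div hq0.ne' (by norm_num), h4] at this
    linarith
  push_cast at h3
  rw [h4] at h3
  -- main inequality: 4 q² (3 log 2 - 1) + 4 log 2 - log q ≤ (2 M + 1) * (16 / q)
  have h9 : 4 * (q : ℝ) ^ 2 * (3 * Real.log 2 - 1) + (4 * Real.log 2 - Real.log q) ≤
      (2 * (M : ℝ) + 1) * (16 / q) := by
    have e2 : (2 * (M : ℝ) + 1) * Real.log ((16 : ℝ) + q) ≤
        (2 * (M : ℝ) + 1) * (Real.log q + 16 / q) :=
      mul_le_mul_of_nonneg_left h5 (by positivity)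
    have e3 : 2 * (q : ℝ) * (2 * ((q : ℝ) * (Real.log q - 1))) ≤
        2 * (q : ℝ) * (2 * Real.log (q.factorial : ℝ)) := by
      apply mul_le_mul_of_nonneg_left _ (by positivity)
      linarith
    nlinarith [e2, e3, h3]
  have h10 : 4 * (q : ℝ) ^ 2 * (3 * Real.log 2 - 1) + (1 - q / 16) ≤
      (2 * (M : ℝ) + 1) * (16 / q) := by linarith
  have h11 : (4 * (q : ℝ) ^ 2 * (3 * Real.log 2 - 1) + (1 - q / 16)) * q ≤
      16 * (2 * (M : ℝ) + 1) := by
    have := mul_le_mul_of_nonneg_right h10 hq0.le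
    calc _ ≤ (2 * (M : ℝ) + 1) * (16 / q) * q := this
      _ = 16 * (2 * (M : ℝ) + 1) := by field_simp
  have h12 : (4 * (q : ℝ) ^ 2 * 1.079 + (1 - q / 16)) * q ≤
      (4 * (q : ℝ) ^ 2 * (3 * Real.log 2 - 1) + (1 - q / 16)) * q := by
    apply mul_le_mul_of_nonneg_right _ hq0.le
    have : 4 * (q : ℝ) ^ 2 * 1.079 ≤ 4 * (q : ℝ) ^ 2 * (3 * Real.log 2 - 1) := by
      apply mul_le_mul_of_nonneg_left _ (by positivity)
      linarith
    linarith
  have h13 : 4 * (q : ℝ) ^ 3 ≤ 32 * ((M : ℝ) + 1) := by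
    have e4 : (q : ℝ) ^ 2 ≤ (q : ℝ) ^ 3 := by
      calc (q : ℝ) ^ 2 = (q : ℝ) ^ 2 * 1 := by ring
        _ ≤ (q : ℝ) ^ 2 * q := mul_le_mul_of_nonneg_left hq' (by positivity)
        _ = (q : ℝ) ^ 3 := by ring
    nlinarith [h11, h12, e4]
  have h14 : ((2 * (q : ℝ)) ^ 3) ≤ 64 * ((M : ℝ) + 1) := by nlinarith [h13]
  exact_mod_cast h14

/-- The logarithmic form. -/
theorem log_form (c : ℕ) (hc : 2 ≤ c) (P : ℕ → ℕ → Prop)
    (h : ∀ L m M : ℕ, 1 ≤ L → c * (L * 2 ^ L) ≤ m → P m M → (2 ^ L) ^ 3 ≤ 64 * (M + 1))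
    (m M : ℕ) (hm : 2 * c ≤ m) (H : P m M) :
    (Real.log 2 * m / (8 * c * Real.log m)) ^ 3 ≤ (M : ℝ) + 1 := by
  have hex : ∃ L : ℕ, m < c * ((L + 1) * 2 ^ (L + 1)) := by
    refine ⟨m, ?_⟩
    have h1 : m + 1 < 2 ^ (m + 1) := Nat.lt_two_pow_self
    calc m < 2 ^ (m + 1) := by omega
      _ = 1 * (1 * 2 ^ (m + 1)) := by ring
      _ ≤ c * ((m + 1) * 2 ^ (m + 1)) :=
        Nat.mul_le_mul (by omega) (Nat.mul_le_mul_right _ (by omega))
  classical
  obtain ⟨L, hL⟩ : ∃ L, L = Nat.find hex := ⟨_, rfl⟩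
  have h1 : m < c * ((L + 1) * 2 ^ (L + 1)) := by rw [hL]; exact Nat.find_spec hex
  have hL1 : 1 ≤ L := by
    by_contra hlt
    have : L = 0 := by omega
    rw [this] at h1
    norm_num at h1
    omega
  have h2 : c * (L * 2 ^ L) ≤ m := by
    have := Nat.find_min hex (m := L - 1) (by omega)
    rw [show L - 1 + 1 = L by omega] at this
    omega
  have h3 := h L m M hL1 h2 H
  have hm0 : (0 : ℝ) < m := by
    have : 0 < m := by omega
    exact_mod_cast this
  have hc' : (2 : ℝ) ≤ c := by exact_mod_cast hc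
  have hm4 : (4 : ℝ) ≤ m := by
    have : 4 ≤ m := by omega
    exact_mod_cast this
  have hlog2 : (0 : ℝ) < Real.log 2 := Real.log_pos (by norm_num)
  have hlogm : (0 : ℝ) < Real.log m := Real.log_pos (by linarith)
  -- `L + 1 ≤ log m / log 2`
  have h4 : ((L : ℝ) + 1) * Real.log 2 ≤ Real.log m := by
    have h5 : (2 : ℝ) ^ (L + 1) ≤ m := by
      have : 2 ^ (L + 1) ≤ m := by
        calc 2 ^ (L + 1) = 2 * (1 * 2 ^ L) := by ring
          _ ≤ c * (L * 2 ^ L) := Nat.mul_le_mul hc (Nat.mul_le_mul_right _ hL1)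
          _ ≤ m := h2
      exact_mod_cast this
    have := Real.log_le_log (by positivity) h5
    rw [Real.log_pow] at this
    push_cast at this
    linarith
  have h6 : (m : ℝ) < c * (((L : ℝ) + 1) * 2 ^ (L + 1)) := by exact_mod_cast h1
  have h7 : Real.log 2 * m ≤ 2 * c * Real.log m * 2 ^ L := by
    calc Real.log 2 * m ≤ Real.log 2 * (c * (((L : ℝ) + 1) * 2 ^ (L + 1))) :=
          mul_le_mul_of_nonneg_left h6.le hlog2.le
      _ = (((L : ℝ) + 1) * Real.log 2) * (2 * c * 2 ^ L) := by rw [pow_succ]; ring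
      _ ≤ Real.log m * (2 * c * 2 ^ L) := mul_le_mul_of_nonneg_right h4 (by positivity)
      _ = 2 * c * Real.log m * 2 ^ L := by ring
  have h8 : Real.log 2 * m / (8 * c * Real.log m) ≤ 2 ^ L / 4 := by
    rw [div_le_div_iff₀ (by positivity) (by norm_num)]
    nlinarith [h7]
  have h9 : (Real.log 2 * m / (8 * c * Real.log m)) ^ 3 ≤ ((2 : ℝ) ^ L / 4) ^ 3 :=
    pow_le_pow_left₀ (by positivity) h8 3
  have h10 : ((2 : ℝ) ^ L) ^ 3 ≤ 64 * ((M : ℝ) + 1) := by exact_mod_cast h3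
  calc (Real.log 2 * m / (8 * c * Real.log m)) ^ 3 ≤ ((2 : ℝ) ^ L / 4) ^ 3 := h9
    _ = ((2 : ℝ) ^ L) ^ 3 / 64 := by ring
    _ ≤ (M : ℝ) + 1 := by linarith

end L5helper96.NC
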