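import Pool.Agent.L5lead.NC.Defs

/-!
NEARLY CUBIC, version 2: the polynomials.
-/

namespace L5helper96.NC

open Finset MvPolynomial L5helper59.DC L5lead.NC

/-- the dense matrix: the variable `(l, i)` in the cell `(i, i + l)` -/
noncomputable def Y2 (N : ℕ) (i : Fin N) (j : Fin (2 * N)) :
    MvPolynomial (Option (Fin N × Fin N)) ℂ :=
  ∑ l : Fin N, if (j : ℕ) = i + l then X (some (l, i)) else 0

/-- the exponent `(j - i - z) ^ 2` -/
def e2 (z i j : ℕ) : ℕ := ((j : ℤ) - i - z).natAbs ^ 2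

/-- the polynomial with parameter `t` -/
noncomputable def F2t (N r : ℕ) (t : ℂ) : MvPolynomial (Option (Fin N × Fin N)) ℂ :=
  X none + ∑ z ∈ range N, sig r (fun (i : Fin N) (j : Fin (2 * N)) =>
    C (t ^ e2 z i j) * Y2 N i j)

/-- the limit: the sum of the elementary symmetric polynomials of the rows `l` -/
noncomputable def F20 (N r : ℕ) : MvPolynomial (Option (Fin N × Fin N)) ℂ :=
  X none + ∑ l : Fin N, ∑ I ∈ powersetCard r (univ : Finset (Fin N)),
    ∏ i ∈ I, X (some (l, i))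

/-- the size of the permanent -/
def size2 (L r : ℕ) : ℕ :=
  2 ^ L + 2 * 2 ^ L + (r + (L * (2 * (2 * 2 ^ L) + 2 * 2 ^ L) + 2 * L ^ 2))

end L5helper96.NC
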