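import Pool.Agent.L5helper96.NC.Defs2
import Pool.Agent.L5helper96.NC.Arith
import Pool.Agent.L5helper67.DC.Assembled

/-!
NEARLY CUBIC, version 2: the final form from the count of critical points.
-/

namespace L5helper96.NC

open Finset MvPolynomial L5helper59.DC L5lead.NC

/-- the size -/
theorem size2_le (L q : ℕ) (hN : 2 ^ L = 2 * q) (hL : 1 ≤ L) :
    size2 L (q + 1) ≤ 11 * (L * 2 ^ L) := by
  unfold size2
  rcases Nat.lt_or_ge 1 L with h | h
  · have h1 : L < 2 ^ L := Nat.lt_two_pow_self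
    rw [hN] at h1 ⊢
    nlinarith [Nat.mul_le_mul_left L h1.le, Nat.mul_le_mul_right q h]
  · have : L = 1 := by omega
    subst this
    omega

/-- the statement of the part E -/
def Main2Stmt : Prop :=
  ∀ (L q m M : ℕ), 1 ≤ q → 2 ^ L = 2 * q → m = size2 L (q + 1) →
    BorderRep m M → ∀ (a b : ℕ), 1 ≤ a → 1 ≤ b →
    (q.factorial ^ 2) ^ (2 * q) * (a ^ (2 * q * (2 * q) + 1) * b ^ (2 * M)) ≤
      (a + b) ^ (2 * M + 1) * (2 * b) ^ (2 * q * (2 * q))

theorem final2_of (h : Main2Stmt) (m M : ℕ) (hm : 22 ≤ m) (H : BorderRep m M) :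
    (Real.log 2 * m / (88 * Real.log m)) ^ 3 ≤ (M : ℝ) + 1 := by
  have h1 := log_form 11 (by norm_num) BorderRep (fun L m' M' hL hm' H' => by
    obtain ⟨k, rfl⟩ : ∃ k, L = k + 1 := ⟨L - 1, by omega⟩
    have hN : 2 ^ (k + 1) = 2 * 2 ^ k := by rw [pow_succ]; ring
    have hq : 1 ≤ 2 ^ k := Nat.one_le_two_pow
    have H2 := L5helper67.DC.borderRep_mono m' (size2 (k + 1) (2 ^ k + 1)) M'
      ((size2_le (k + 1) (2 ^ k) hN hL).trans hm') H'
    rw [hN]
    exact cubic (2 ^ k) M' hq (fun a b ha hb => h (k + 1) (2 ^ k) _ M' hq hN rfl H2 a b ha hb))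
    m M (by omega) H
  have h2 : (8 * ((11 : ℕ) : ℝ) * Real.log m) = 88 * Real.log m := by
    push_cast
    ring
  rw [h2] at h1
  exact h1

end L5helper96.NC
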